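import Pool.Agent.V1190.DK.Rigid

/-!
# Piecewise conjugacy does not imply unitary equivalence (MP_7f766c_an, negated form of Q1)

The definitions `MSystem`, `rinner`, `MSystem.left`, `UnitarilyEquivalent`, `PiecewiseConjugate` are in
`Pool.Agent.V1190.DK.Defs`.
-/

namespace Pool.Agent.Results.MP_7f766c_an.NotUnitary

open Pool.Agent.V1190.DK

/-- There are two classical multivariable dynamical systems (with five maps, on the same compact
Hausdorff space) that are piecewise conjugate, but whose `C*`-correspondences are not unitarily
equivalent. -/
theorem result : ∃ (X : Type) (_ : TopologicalSpace X) (_ : CompactSpace X) (_ : T2Space X)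
    (S T : MSystem 5 X), PiecewiseConjugate S T ∧ ¬ UnitarilyEquivalent S T :=
  ⟨XX, inferInstance, inferInstance, inferInstance, SS, TT, pc, not_ue⟩

end Pool.Agent.Results.MP_7f766c_an.NotUnitary
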